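import Pool.Agent.Run7.h849.SC.Hfl

/-!
# The HOMFLYPT polynomial detects unlinks among diagrams of signed even chains

The HOMFLYPT polynomial (`Rlm`, `HomflyRules`, `IsHomfly`; the variables `v`, `z` are called `l`,
`m` there) and the sliced oriented diagrams are those of `Pool.Agent.Helper454.Wh.Defs`. The diagrams
of signed chains are defined in `Pool.Agent.Run7.h849.SC.Dfn`, Seifert circles in
`Pool.Agent.Run7.h849.Dfn`.
-/

set_option autoImplicit false

namespace Pool.Agent.Results.MP_140c34_gt.SignedChains

open Pool.Agent.Helper454.Wh (OWord OClosed Rlm IsHomfly)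
open Run7.h849 (seif)
open Run7.h849.SC

/-- Let `w` be a nonempty base diagram with even chains of bands such that all bands with a single
crossing have the same sign. If the HOMFLYPT polynomial of `expand w` is that of the unlink with `r`
components, `r ≥ 1`, then no band has more than one crossing, and the number of all crossings is
`s - r`, where `s` is the number of the Seifert circles. -/
theorem result :
    (∃ P : OWord → Rlm, IsHomfly P) ∧
    ∀ w : List Bz, Chained w → w ≠ [] →
      ((∀ n ∈ bands w, n ≠ -1) ∨ (∀ n ∈ bands w, n ≠ 1)) →
      OClosed (expand w) ∧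
      ∀ (P : OWord → Rlm) (r : ℕ), IsHomfly P → 0 < r → P (expand w) = P (unlink r) →
        (∀ n ∈ bands w, |n| ≤ 1) ∧
          ((bands w).map Int.natAbs).sum + r = seif (expand w) :=
  ⟨Pool.Agent.Helper454.Wh.Homf.exists_homfly, fun _ hw hne h =>
    ⟨closed_expand hw, fun _ _ hP hr e => homfly_unlink hP hw hne h hr e⟩⟩

end Pool.Agent.Results.MP_140c34_gt.SignedChains
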